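import Pool.Agent.P.MP_324c94_co.Var

set_option autoImplicit false

namespace Pool.Agent.Results.MP_324c94_co.AllVariants

/-- For all large `k` there is a graph in all of whose drawings at least `(1 + 1 / 13051) k`
pairs of disjoint edges meet, while after deleting any edge there is a straight-line drawing in
which fewer than `k` pairs of edges meet (pairs are counted ordered, hence the factors `2`). -/
theorem result : ∃ k₀ : ℕ, ∀ k : ℕ, k₀ ≤ k → ∃ (V : Type) (_ : Finite V) (G : SimpleGraph V),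
    (∀ (φ : V → ℂ) (I : Sym2 V → Set ℂ),
      (∀ e ∈ G.edgeSet, IsPathConnected (I e) ∧ ∀ x ∈ e, φ x ∈ I e) →
      2 * ((1 + 1 / 13051) * k : ℝ) ≤ {p : Sym2 V × Sym2 V | p.1 ∈ G.edgeSet ∧ p.2 ∈ G.edgeSet ∧
        (∀ x ∈ p.1, x ∉ p.2) ∧ (I p.1 ∩ I p.2).Nonempty}.ncard) ∧
    ∀ e ∈ G.edgeSet, ∃ φ : V → ℂ, Function.Injective φ ∧
      (∀ u v, (G.deleteEdges {e}).Adj u v → ∀ x, φ x ∉ openSegment ℝ (φ u) (φ v)) ∧
      {p : Sym2 V × Sym2 V | p.1 ≠ p.2 ∧ ∃ u v u' v', (G.deleteEdges {e}).Adj u v ∧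
        (G.deleteEdges {e}).Adj u' v' ∧ p = (s(u, v), s(u', v')) ∧
        (openSegment ℝ (φ u) (φ v) ∩ openSegment ℝ (φ u') (φ v')).Nonempty}.ncard < 2 * k :=
  Pool.Agent.P.MP_324c94_co.Var.main

end Pool.Agent.Results.MP_324c94_co.AllVariants
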